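import Pool.Agent.Helper42.DB.Goals2

set_option autoImplicit false

/-! # Packet THIN (MP_48f005_an) -/

namespace Pool.Agent.Helper42.DB.PkTHIN

open Set Filter Topology

variable {S : Sys}

lemma abs_Ep_le (x x' : St S) : |Ep x x'| ≤ 2 * ‖x'.pos - x.pos‖ := by
  unfold Ep
  refine (abs_dt_le _ _).trans ?_
  have h : ‖ee x'.th - ee x.th‖ ≤ 2 := by
    refine (norm_sub_le _ _).trans ?_
    rw [norm_ee, norm_ee]; norm_num
  gcongr

lemma abs_Em_le (x x' : St S) : |Em x x'| ≤ 2 * ‖x'.pos - x.pos‖ := by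
  unfold Em
  refine (abs_dt_le _ _).trans ?_
  have h : ‖ee x.bk - ee x'.bk‖ ≤ 2 := by
    refine (norm_sub_le _ _).trans ?_
    rw [norm_ee, norm_ee]; norm_num
  gcongr

theorem thm (S : Sys) : G_ARC S → G_FLE S → G_BNE S → G_THIN S := by
  intro hA hF hB n w z z' δ F hn hδ hδ2 hz hz' hFk
  have hκ : 0 < S.κ := (hA (w 0)).1
  set e : ℝ := (len (z (n - 1)) (z n) + len (z' (n - 1)) (z' n)) *
      (1 - Real.cos ((z' (n - 1)).th - (z (n - 1)).th)) with he
  set D : ℕ → ℝ := fun k => ‖(z' k).pos - (z k).pos‖ with hD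
  have hD0 : ∀ k, 0 ≤ D k := fun k => norm_nonneg _
  have hlen : ∀ x y : St S, 0 ≤ len x y := fun x y => norm_nonneg _
  have he0 : 0 ≤ e := by
    have h1 := Real.cos_le_one ((z' (n - 1)).th - (z (n - 1)).th)
    have h2 := hlen (z (n - 1)) (z n)
    have h3 := hlen (z' (n - 1)) (z' n)
    rw [he]
    exact mul_nonneg (by linarith) (by linarith)
  by_cases hcase : e ≤ 4 * D n
  · exact Or.inl hcase
  right
  push Not at hcase
  have hsin : 0 ≤ Real.sin δ := Real.sin_nonneg_of_nonneg_of_le_pi hδ.le (by linarith [Real.pi_pos])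
  -- flights
  have hfl : ∀ k < n, Em (z (k + 1)) (z' (k + 1)) = Ep (z k) (z' k) +
      (len (z k) (z (k + 1)) + len (z' k) (z' (k + 1))) * (1 - Real.cos ((z' k).th - (z k).th)) :=
    fun k hk => hF _ _ _ _ (hz.1.2 k hk) (hz'.1.2 k hk)
  have hbn : ∀ k ≤ n, Em (z k) (z' k) + 2 * S.κ * (Real.cos (z k).φ + Real.cos (z' k).φ) * D k ^ 2
      ≤ Ep (z k) (z' k) := fun k hk =>
    hB _ _ ((hz.2 k hk).trans (hz'.2 k hk).symm) (hz.1.1 k hk) (hz'.1.1 k hk)
  -- one step
  have hstep : ∀ k, k + 1 ≤ n - 1 → Ep (z k) (z' k) +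
      2 * S.κ * (Real.cos (z (k + 1)).φ) * D (k + 1) ^ 2 ≤ Ep (z (k + 1)) (z' (k + 1)) := by
    intro k hk
    have h1 := hfl k (by omega)
    have h2 := hbn (k + 1) (by omega)
    have h3 : 0 ≤ (len (z k) (z (k + 1)) + len (z' k) (z' (k + 1))) *
        (1 - Real.cos ((z' k).th - (z k).th)) := by
      have := Real.cos_le_one ((z' k).th - (z k).th)
      exact mul_nonneg (add_nonneg (hlen _ _) (hlen _ _)) (by linarith)
    have h4 : 0 < Real.cos (z' (k + 1)).φ := (hz'.1.1 (k + 1) (by omega)).cos_pos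
    have h5 : 0 ≤ 2 * S.κ * Real.cos (z' (k + 1)).φ * D (k + 1) ^ 2 := by positivity
    nlinarith
  have hmono1 : ∀ k, k + 1 ≤ n - 1 → Ep (z k) (z' k) ≤ Ep (z (k + 1)) (z' (k + 1)) := by
    intro k hk
    have h1 := hstep k hk
    have h4 : 0 < Real.cos (z (k + 1)).φ := (hz.1.1 (k + 1) (by omega)).cos_pos
    have h5 : 0 ≤ 2 * S.κ * Real.cos (z (k + 1)).φ * D (k + 1) ^ 2 := by positivity
    linarith
  have hmono : ∀ j k, k + j = n - 1 → Ep (z k) (z' k) ≤ Ep (z (n - 1)) (z' (n - 1)) := by
    intro j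
    induction j with
    | zero =>
      intro k hk
      rw [← hk, Nat.add_zero]
    | succ j ih =>
      intro k hk
      exact (hmono1 k (by omega)).trans (ih (k + 1) (by omega))
  have hlast : Ep (z (n - 1)) (z' (n - 1)) < -e / 2 := by
    have h1 := hfl (n - 1) (by omega)
    rw [Nat.sub_add_cancel hn] at h1
    have h2 := (abs_le.mp (abs_Em_le (z n) (z' n))).2
    have h3 : Em (z n) (z' n) = Ep (z (n - 1)) (z' (n - 1)) + e := h1
    have h4 : Em (z n) (z' n) ≤ 2 * D n := h2
    linarith
  have hDk : ∀ k ≤ n - 1, e / 4 < D k := by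
    intro k hk
    have h1 := hmono (n - 1 - k) k (by omega)
    have h2 := (abs_le.mp (abs_Ep_le (z k) (z' k))).1
    have h3 : -(2 * D k) ≤ Ep (z k) (z' k) := h2
    linarith
  set c : ℝ := 2 * S.κ * Real.sin δ * (e / 4) ^ 2 with hc
  have hc0 : 0 ≤ c := by positivity
  have hsum : ∀ m ≤ n - 1, Ep (z 0) (z' 0) + c * ((F.filter (fun k => k ≤ m)).card : ℝ) ≤
      Ep (z m) (z' m) := by
    intro m
    induction m with
    | zero =>
      intro _
      have : F.filter (fun k => k ≤ 0) = ∅ := by
        rw [Finset.filter_eq_empty_iff]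
        intro k hk
        have := (hFk k hk).1
        omega
      rw [this]
      simp
    | succ m ih =>
      intro hm
      have ih' := ih (by omega)
      have h1 := hstep m hm
      by_cases hmF : m + 1 ∈ F
      · have hcard : (F.filter (fun k => k ≤ m + 1)).card ≤
            (F.filter (fun k => k ≤ m)).card + 1 := by
          have : F.filter (fun k => k ≤ m + 1) ⊆ insert (m + 1) (F.filter (fun k => k ≤ m)) := by
            intro k hk
            rw [Finset.mem_filter] at hk
            rw [Finset.mem_insert, Finset.mem_filter]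
            by_cases h : k = m + 1
            · exact Or.inl h
            · exact Or.inr ⟨hk.1, by omega⟩
          exact (Finset.card_le_card this).trans (Finset.card_insert_le _ _)
        have hcard' : ((F.filter (fun k => k ≤ m + 1)).card : ℝ) ≤
            ((F.filter (fun k => k ≤ m)).card : ℝ) + 1 := by exact_mod_cast hcard
        have h2 : c ≤ 2 * S.κ * (Real.cos (z (m + 1)).φ) * D (m + 1) ^ 2 := by
          rw [hc]
          have h3 := (hFk _ hmF).2.2
          have h4 := hDk (m + 1) hm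
          have h5 : 0 ≤ e / 4 := by positivity
          have h6 : (e / 4) ^ 2 ≤ D (m + 1) ^ 2 := by gcongr
          have h7 : 2 * S.κ * Real.sin δ ≤ 2 * S.κ * Real.cos (z (m + 1)).φ := by gcongr
          exact mul_le_mul h7 h6 (by positivity) (le_trans (by positivity) h7)
        have h3 : c * ((F.filter (fun k => k ≤ m + 1)).card : ℝ) ≤
            c * (((F.filter (fun k => k ≤ m)).card : ℝ) + 1) := by gcongr
        linarith
      · have hEq : F.filter (fun k => k ≤ m + 1) = F.filter (fun k => k ≤ m) := by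
          apply Finset.filter_congr
          intro k hk
          constructor
          · intro h
            have : k ≠ m + 1 := fun h' => hmF (h' ▸ hk)
            omega
          · intro h
            omega
        rw [hEq]
        have h4 : 0 < Real.cos (z (m + 1)).φ := (hz.1.1 (m + 1) (by omega)).cos_pos
        have h5 : 0 ≤ 2 * S.κ * Real.cos (z (m + 1)).φ * D (m + 1) ^ 2 := by positivity
        linarith
  have hfin := hsum (n - 1) le_rfl
  have hall : F.filter (fun k => k ≤ n - 1) = F := by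
    rw [Finset.filter_eq_self]
    intro k hk
    have := (hFk k hk).2.1
    omega
  rw [hall] at hfin
  have h0 := (abs_le.mp (abs_Ep_le (z 0) (z' 0))).1
  have h0' : -(2 * D 0) ≤ Ep (z 0) (z' 0) := h0
  have h1 : c * (F.card : ℝ) ≤ 2 * D 0 := by linarith
  rw [hc] at h1
  change e ^ 2 * S.κ * F.card * Real.sin δ ≤ 16 * D 0
  nlinarith

end Pool.Agent.Helper42.DB.PkTHIN
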