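import Pool.Agent.Helper42.DB.Goals3

set_option autoImplicit false

/-! # Packet SUBD (MP_48f005_an) -/

namespace Pool.Agent.Helper42.DB.PkSUBD

open Set Filter Topology

/-- The regular parameters whose point is in a countable set form a countable set. -/
lemma countable_E0 (C : CTab) (D : Set ℂ) (hD : D.Countable) (i : C.ι) :
    {u : ℝ | (C.A i ≤ u ∧ u < C.B i ∧ (¬C.closed i → C.A i < u)) ∧ C.g i u ∈ D}.Countable := by
  refine Set.MapsTo.countable_of_injOn (f := C.g i) (t := D) ?_ ?_ hD
  · intro u hu; exact hu.2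
  · intro u hu v hv huv
    exact (C.simple i i u v hu.1 ⟨hv.1.1, hv.1.2.1.le, fun _ => hv.1.2.1⟩ huv).2

lemma g_per (C : CTab) (i : C.ι) (hc : C.closed i) : Function.Periodic (C.g i) (C.P i) :=
  fun u => (C.per i hc).2 u

lemma P_pos (C : CTab) (i : C.ι) : 0 < C.P i := sub_pos.mpr (C.hAB i)

/-- The bad parameters. -/
lemma countable_E (C : CTab) (D : Set ℂ) (hD : D.Countable) (i : C.ι) :
    {u : ℝ | (C.closed i ∨ (C.A i < u ∧ u < C.B i)) ∧ C.g i u ∈ D}.Countable := by
  by_cases hc : C.closed i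
  · have hsub : {u : ℝ | (C.closed i ∨ (C.A i < u ∧ u < C.B i)) ∧ C.g i u ∈ D} ⊆
        ⋃ k : ℤ, (fun x : ℝ => x + k • C.P i) '' {u : ℝ | (C.A i ≤ u ∧ u < C.B i ∧
          (¬C.closed i → C.A i < u)) ∧ C.g i u ∈ D} := by
      intro u hu
      rw [Set.mem_iUnion]
      refine ⟨toIcoDiv (P_pos C i) (C.A i) u, toIcoMod (P_pos C i) (C.A i) u, ⟨?_, ?_⟩, ?_⟩
      · have h1 := toIcoMod_mem_Ico (P_pos C i) (C.A i) u
        refine ⟨h1.1, ?_, fun h => absurd hc h⟩
        have h2 := h1.2
        have h3 : C.A i + C.P i = C.B i := by unfold CTab.P; ring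
        rwa [h3] at h2
      · have h1 : toIcoMod (P_pos C i) (C.A i) u = u - toIcoDiv (P_pos C i) (C.A i) u • C.P i := rfl
        rw [h1, (g_per C i hc).sub_zsmul_eq]
        exact hu.2
      · exact toIcoMod_add_toIcoDiv_zsmul (P_pos C i) (C.A i) u
    refine Set.Countable.mono hsub ?_
    exact Set.countable_iUnion fun k => (countable_E0 C D hD i).image _
  · refine Set.Countable.mono ?_ (countable_E0 C D hD i)
    rintro u ⟨h | h, hu⟩
    · exact absurd h hc
    · exact ⟨⟨h.1.le, h.2, fun _ => h.1⟩, hu⟩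

theorem thm (C : CTab) : G_SUBD C := by
  intro D μ hD hμ i
  have hE := countable_E C D hD i
  set E : Set ℝ := {u : ℝ | (C.closed i ∨ (C.A i < u ∧ u < C.B i)) ∧ C.g i u ∈ D} with hEdef
  have hdense : Dense Eᶜ := hE.dense_compl ℝ
  have hAB := C.hAB i
  obtain ⟨m, hm⟩ := exists_nat_gt (max 3 (3 * (C.B i - C.A i) / μ))
  have hm3 : (3 : ℝ) < m := lt_of_le_of_lt (le_max_left _ _) hm
  have hmμ : 3 * (C.B i - C.A i) / μ < m := lt_of_le_of_lt (le_max_right _ _) hm
  have hm0 : (0 : ℝ) < m := by linarith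
  have hmpos : 0 < m := by exact_mod_cast hm0
  set h : ℝ := (C.B i - C.A i) / m with hh
  have hh0 : 0 < h := div_pos (sub_pos.mpr hAB) hm0
  have hmh : m * h = C.B i - C.A i := by rw [hh]; field_simp
  have hhμ : 3 * h ≤ μ := by
    rw [div_lt_iff₀ hμ] at hmμ
    have h1 : 3 * (m * h) < m * μ := by rw [hmh]; linarith
    have h2 : m * (3 * h) < m * μ := by linarith
    exact (lt_of_mul_lt_mul_left h2 hm0.le).le
  have hch : ∀ k : ℕ, ∃ x : ℝ, x ∈ Ioo (C.A i + k * h - h / 3) (C.A i + k * h + h / 3) ∧ x ∉ E := by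
    intro k
    have hne : (Ioo (C.A i + k * h - h / 3) (C.A i + k * h + h / 3)).Nonempty :=
      nonempty_Ioo.mpr (by linarith)
    obtain ⟨x, hx1, hx2⟩ := hdense.inter_open_nonempty _ isOpen_Ioo hne
    exact ⟨x, hx1, hx2⟩
  choose w hw1 hw2 using hch
  classical
  let v : ℕ → ℝ := fun k => if k = m then (if C.closed i then w 0 + C.P i else C.B i) else
    if k = 0 then (if C.closed i then w 0 else C.A i) else w k
  have hvm : v m = if C.closed i then w 0 + C.P i else C.B i := by simp [v]
  have hv0 : v 0 = if C.closed i then w 0 else C.A i := by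
    have : (0 : ℕ) ≠ m := hmpos.ne
    simp [v, this]
  have hvk : ∀ k, k ≠ 0 → k ≠ m → v k = w k := by
    intro k h1 h2; simp [v, h1, h2]
  have hPm : C.P i = m * h := by rw [hmh]; rfl
  have hw0 := hw1 0
  have hbd : ∀ k ≤ m, C.A i + k * h - h / 3 ≤ v k ∧ v k ≤ C.A i + k * h + h / 3 := by
    intro k hk
    by_cases h1 : k = m
    · subst h1
      rw [hvm]
      by_cases hc : C.closed i
      · rw [if_pos hc, hPm]
        push_cast at hw0
        constructor
        · linarith [hw0.1]
        · linarith [hw0.2]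
      · rw [if_neg hc]
        constructor <;> linarith
    · by_cases h2 : k = 0
      · subst h2
        rw [hv0]
        push_cast at hw0 ⊢
        by_cases hc : C.closed i
        · rw [if_pos hc]
          exact ⟨hw0.1.le, hw0.2.le⟩
        · rw [if_neg hc]
          constructor <;> linarith
      · rw [hvk k h2 h1]
        exact ⟨(hw1 k).1.le, (hw1 k).2.le⟩
  refine ⟨m, v, hmpos, ?_, ?_, ?_, ?_⟩
  · intro k hk
    have h1 := hbd k hk.le
    have h2 := hbd (k + 1) hk
    push_cast at h2
    constructor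
    · linarith [h1.2, h2.1]
    · linarith [h1.1, h2.2]
  · intro hc
    rw [hv0, hvm, if_neg hc, if_neg hc]
    exact ⟨rfl, rfl⟩
  · intro hc
    rw [hv0, hvm, if_pos hc, if_pos hc]
  · intro k hk hcase
    have key : ∀ k, (C.closed i ∨ (C.A i < w k ∧ w k < C.B i)) → C.g i (w k) ∉ D := by
      intro k h1 h2
      exact hw2 k ⟨h1, h2⟩
    by_cases h1 : k = m
    · subst h1
      have hc : C.closed i := by
        rcases hcase with h | h
        · exact h
        · exact absurd h.2 (lt_irrefl _)
      rw [hvm, if_pos hc, g_per C i hc (w 0)]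
      exact key 0 (Or.inl hc)
    · by_cases h2 : k = 0
      · subst h2
        have hc : C.closed i := by
          rcases hcase with h | h
          · exact h
          · exact absurd h.1 (lt_irrefl _)
        rw [hv0, if_pos hc]
        exact key 0 (Or.inl hc)
      · rw [hvk k h2 h1]
        apply key
        by_cases hc : C.closed i
        · exact Or.inl hc
        · right
          have h3 : (1 : ℝ) ≤ k := by exact_mod_cast Nat.one_le_iff_ne_zero.mpr h2
          have h4 : (k : ℝ) + 1 ≤ m := by exact_mod_cast Nat.succ_le_of_lt (lt_of_le_of_ne hk h1)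
          have h5 : 1 * h ≤ k * h := mul_le_mul_of_nonneg_right h3 hh0.le
          have h6 : (k + 1) * h ≤ m * h := mul_le_mul_of_nonneg_right h4 hh0.le
          constructor
          · linarith [(hw1 k).1]
          · linarith [(hw1 k).2]

end Pool.Agent.Helper42.DB.PkSUBD
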